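import Mathlib
import Pool.Agent.H892.KT.Stm

/-!
# KT-BIRBASIC: basic birational germs
-/

set_option autoImplicit false

open Filter Topology Set

namespace Pool.Agent.H670.KT

open Pool.Agent.H892.KT

theorem ev_X0 (q : ℂ × ℂ) : ev (MvPolynomial.X 0) q = q.1 := by
  simp [ev]

theorem ev_X1 (q : ℂ × ℂ) : ev (MvPolynomial.X 1) q = q.2 := by
  simp [ev]

theorem ev_one (q : ℂ × ℂ) : ev 1 q = 1 := by
  simp [ev]

theorem ev_X01 (q : ℂ × ℂ) : ev (MvPolynomial.X 0 * MvPolynomial.X 1) q = q.1 * q.2 := by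
  simp [ev]

theorem birAt_of {f g : ℂ × ℂ → ℂ × ℂ} {s t : Set (ℂ × ℂ)} (hs : IsOpen s) (ht : IsOpen t)
    (hst : ∀ x ∈ s, f x ∈ t) (hts : ∀ y ∈ t, g y ∈ s) (hl : ∀ x ∈ s, g (f x) = x)
    (hr : ∀ y ∈ t, f (g y) = y) (hf : ContinuousOn f s) (hg : ContinuousOn g t)
    {P₁ Q₁ P₂ Q₂ P₃ Q₃ P₄ Q₄ : MvPolynomial (Fin 2) ℂ} (h1 : Q₁ ≠ 0) (h2 : Q₂ ≠ 0) (h3 : Q₃ ≠ 0)
    (h4 : Q₄ ≠ 0)
    (hfr : ∀ q ∈ s, ev Q₁ q * (f q).1 = ev P₁ q ∧ ev Q₂ q * (f q).2 = ev P₂ q)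
    (hgr : ∀ q ∈ t, ev Q₃ q * (g q).1 = ev P₃ q ∧ ev Q₄ q * (g q).2 = ev P₄ q)
    {p : ℂ × ℂ} (hp : p ∈ s) : BirAt f p := by
  refine ⟨{ toFun := f, invFun := g, source := s, target := t, map_source' := hst,
            map_target' := hts, left_inv' := hl, right_inv' := hr, open_source := hs,
            open_target := ht, continuousOn_toFun := hf, continuousOn_invFun := hg },
    hp, Eventually.of_forall fun q => rfl, ?_, ?_⟩
  · exact ⟨P₁, Q₁, P₂, Q₂, h1, h2, (hs.mem_nhds hp) |> fun h => Filter.mem_of_superset h hfr⟩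
  · exact ⟨P₃, Q₃, P₄, Q₄, h3, h4,
      (ht.mem_nhds (hst p hp)) |> fun h => Filter.mem_of_superset h hgr⟩

theorem open1 : IsOpen {p : ℂ × ℂ | p.1 ≠ 0} := isOpen_ne_fun continuous_fst continuous_const

theorem open2 : IsOpen {p : ℂ × ℂ | p.2 ≠ 0} := isOpen_ne_fun continuous_snd continuous_const

theorem cdiv : ContinuousOn (fun q : ℂ × ℂ => (q.1, q.2 / q.1)) {p : ℂ × ℂ | p.1 ≠ 0} :=
  continuousOn_fst.prodMk (continuousOn_snd.div continuousOn_fst fun _ h => h)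

theorem cB : Continuous bB := by
  unfold bB
  exact continuous_fst.prodMk (continuous_fst.mul continuous_snd)

theorem t_BIRBASIC : S_BIRBASIC := by
  have X0 : (MvPolynomial.X 0 : MvPolynomial (Fin 2) ℂ) ≠ 0 := MvPolynomial.X_ne_zero 0
  have X1 : (MvPolynomial.X 1 : MvPolynomial (Fin 2) ℂ) ≠ 0 := MvPolynomial.X_ne_zero 1
  refine ⟨fun p hp => ?_, fun p hp => ?_, fun p hp => ?_, fun p hp => ?_, fun p => ?_⟩
  · refine birAt_of (f := bA) (g := fun q => (q.1 / q.2, q.2)) (s := {p | p.2 ≠ 0})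
      (t := {p | p.2 ≠ 0}) open2 open2 (fun x hx => hx) (fun y hy => hy) ?_ ?_ ?_ ?_
      (P₁ := MvPolynomial.X 0 * MvPolynomial.X 1) (Q₁ := 1) (P₂ := MvPolynomial.X 1) (Q₂ := 1)
      (P₃ := MvPolynomial.X 0) (Q₃ := MvPolynomial.X 1) (P₄ := MvPolynomial.X 1) (Q₄ := 1)
      one_ne_zero one_ne_zero X1 one_ne_zero ?_ ?_ hp
    · intro x hx
      exact Prod.ext (mul_div_cancel_right₀ _ hx) rfl
    · intro y hy
      exact Prod.ext (div_mul_cancel₀ _ hy) rfl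
    · exact (continuousOn_fst.mul continuousOn_snd).prodMk continuousOn_snd
    · exact (continuousOn_fst.div continuousOn_snd fun _ h => h).prodMk continuousOn_snd
    · intro q _
      rw [ev_one, ev_X01, ev_X1]
      exact ⟨one_mul _, one_mul _⟩
    · intro q hq
      rw [ev_one, ev_X0, ev_X1]
      exact ⟨mul_div_cancel₀ _ hq, one_mul _⟩
  · refine birAt_of (f := bB) (g := fun q => (q.1, q.2 / q.1)) (s := {p | p.1 ≠ 0})
      (t := {p | p.1 ≠ 0}) open1 open1 (fun x hx => hx) (fun y hy => hy) ?_ ?_ cB.continuousOn cdiv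
      (P₁ := MvPolynomial.X 0) (Q₁ := 1) (P₂ := MvPolynomial.X 0 * MvPolynomial.X 1) (Q₂ := 1)
      (P₃ := MvPolynomial.X 0) (Q₃ := 1) (P₄ := MvPolynomial.X 1) (Q₄ := MvPolynomial.X 0)
      one_ne_zero one_ne_zero one_ne_zero X0 ?_ ?_ hp
    · intro x hx
      exact Prod.ext rfl (mul_div_cancel_left₀ _ hx)
    · intro y hy
      exact Prod.ext rfl (mul_div_cancel₀ _ hy)
    · intro q _
      rw [ev_one, ev_X01, ev_X0]
      exact ⟨one_mul _, one_mul _⟩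
    · intro q hq
      rw [ev_one, ev_X0, ev_X1]
      exact ⟨one_mul _, mul_div_cancel₀ _ hq⟩
  · refine birAt_of (f := fun q => (q.1, q.2 / q.1)) (g := bB) (s := {p | p.1 ≠ 0})
      (t := {p | p.1 ≠ 0}) open1 open1 (fun x hx => hx) (fun y hy => hy) ?_ ?_ cdiv cB.continuousOn
      (P₁ := MvPolynomial.X 0) (Q₁ := 1) (P₂ := MvPolynomial.X 1) (Q₂ := MvPolynomial.X 0)
      (P₃ := MvPolynomial.X 0) (Q₃ := 1) (P₄ := MvPolynomial.X 0 * MvPolynomial.X 1) (Q₄ := 1)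
      one_ne_zero X0 one_ne_zero one_ne_zero ?_ ?_ hp
    · intro y hy
      exact Prod.ext rfl (mul_div_cancel₀ _ hy)
    · intro x hx
      exact Prod.ext rfl (mul_div_cancel_left₀ _ hx)
    · intro q hq
      rw [ev_one, ev_X0, ev_X1]
      exact ⟨one_mul _, mul_div_cancel₀ _ hq⟩
    · intro q _
      rw [ev_one, ev_X01, ev_X0]
      exact ⟨one_mul _, one_mul _⟩
  · refine birAt_of (f := bK) (g := fun q => (q.2⁻¹, q.1 * q.2)) (s := {p | p.1 ≠ 0})
      (t := {p | p.2 ≠ 0}) open1 open2 (fun x hx => inv_ne_zero hx) (fun y hy => inv_ne_zero hy)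
      ?_ ?_ ?_ ?_
      (P₁ := MvPolynomial.X 0 * MvPolynomial.X 1) (Q₁ := 1) (P₂ := 1) (Q₂ := MvPolynomial.X 0)
      (P₃ := 1) (Q₃ := MvPolynomial.X 1) (P₄ := MvPolynomial.X 0 * MvPolynomial.X 1) (Q₄ := 1)
      one_ne_zero X0 X1 one_ne_zero ?_ ?_ hp
    · intro x hx
      have hx' : x.1 ≠ 0 := hx
      refine Prod.ext (inv_inv x.1) ?_
      change x.1 * x.2 * x.1⁻¹ = x.2
      field_simp
    · intro y hy
      have hy' : y.2 ≠ 0 := hy
      refine Prod.ext ?_ (inv_inv y.2)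
      change y.2⁻¹ * (y.1 * y.2) = y.1
      field_simp
    · exact (continuousOn_fst.mul continuousOn_snd).prodMk (continuousOn_fst.inv₀ fun _ h => h)
    · exact (continuousOn_snd.inv₀ fun _ h => h).prodMk (continuousOn_fst.mul continuousOn_snd)
    · intro q hq
      rw [ev_one, ev_X0, ev_X01]
      exact ⟨one_mul _, mul_inv_cancel₀ hq⟩
    · intro q hq
      rw [ev_one, ev_X1, ev_X01]
      exact ⟨mul_inv_cancel₀ hq, one_mul _⟩
  · refine birAt_of (f := id) (g := id) (s := univ) (t := univ) isOpen_univ isOpen_univ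
      (fun x hx => hx) (fun y hy => hy) (fun _ _ => rfl) (fun _ _ => rfl) continuousOn_id
      continuousOn_id
      (P₁ := MvPolynomial.X 0) (Q₁ := 1) (P₂ := MvPolynomial.X 1) (Q₂ := 1)
      (P₃ := MvPolynomial.X 0) (Q₃ := 1) (P₄ := MvPolynomial.X 1) (Q₄ := 1)
      one_ne_zero one_ne_zero one_ne_zero one_ne_zero ?_ ?_ (mem_univ p)
    · intro q _
      rw [ev_one, ev_X0, ev_X1]
      exact ⟨one_mul _, one_mul _⟩
    · intro q _
      rw [ev_one, ev_X0, ev_X1]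
      exact ⟨one_mul _, one_mul _⟩

end Pool.Agent.H670.KT
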